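import Pool.Agent.Helper431.Core5
import Pool.Agent.Helper431.CycleIso

set_option autoImplicit false

namespace Pool.Agent.Results.MP_ca4ce9_co.MixedDimBound

open SimpleGraph

theorem two_le_degree {V : Type*} [Fintype V] [DecidableEq V] (G : SimpleGraph V)
    [DecidableRel G.Adj] (hcard : 3 ≤ Fintype.card V)
    (hcut : ∀ v : V, (G.induce {w : V | w ≠ v}).Connected) (v : V) : 2 ≤ G.degree v := by
  have key : ∀ u : V, u ≠ v → ∃ z, z ≠ u ∧ G.Adj v z := by
    intro u hu
    have h1 : (Finset.univ \ ({u, v} : Finset V)).Nonempty := by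
      rw [← Finset.card_pos]
      have h2 := Finset.le_card_sdiff ({u, v} : Finset V) Finset.univ
      have h3 : ({u, v} : Finset V).card ≤ 2 := Finset.card_le_two
      rw [Finset.card_univ] at h2
      omega
    obtain ⟨t, ht⟩ := h1
    simp only [Finset.mem_sdiff, Finset.mem_univ, true_and, Finset.mem_insert,
      Finset.mem_singleton, not_or] at ht
    obtain ⟨w⟩ := (hcut u).preconnected ⟨v, hu.symm⟩ ⟨t, ht.1⟩
    cases w with
    | nil => exact absurd rfl ht.2
    | cons h q =>
      rename_i z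
      exact ⟨z.1, z.2, h⟩
  have h0 : ∃ u : V, u ≠ v := by
    have : 1 < Fintype.card V := by omega
    exact Fintype.exists_ne_of_one_lt_card this v
  obtain ⟨u, hu⟩ := h0
  obtain ⟨z, -, hz⟩ := key u hu
  obtain ⟨z', hz', hz'v⟩ := key z hz.ne.symm
  have hsub : ({z, z'} : Finset V) ⊆ G.neighborFinset v := by
    intro x hx
    rw [Finset.mem_insert, Finset.mem_singleton] at hx
    rw [mem_neighborFinset]
    rcases hx with rfl | rfl
    · exact hz
    · exact hz'v
  have := Finset.card_le_card hsub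
  rwa [card_neighborFinset_eq_degree, Finset.card_pair hz'.symm] at this

/-- Every 2-connected graph which is not a cycle has a mixed resolving set with at most
`2 c(G)` vertices, `c(G) = |E| - |V| + 1`. -/
theorem result (V : Type*) [Fintype V] [DecidableEq V] (G : SimpleGraph V) [DecidableRel G.Adj]
    (hcard : 3 ≤ Fintype.card V) (hconn : G.Connected)
    (hcut : ∀ v : V, (G.induce {w : V | w ≠ v}).Connected)
    (hcycle : ∀ n : ℕ, IsEmpty (G ≃g cycleGraph n)) :
    ∃ S : Finset V,
      (S.card : ℤ) ≤ 2 * ((G.edgeFinset.card : ℤ) - (Fintype.card V : ℤ) + 1) ∧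
      (∀ x y : V, x ≠ y → ∃ s ∈ S, G.dist s x ≠ G.dist s y) ∧
      (∀ x a b : V, G.Adj a b → ∃ s ∈ S, G.dist s x ≠ min (G.dist s a) (G.dist s b)) ∧
      (∀ a b c d : V, G.Adj a b → G.Adj c d → s(a, b) ≠ s(c, d) →
        ∃ s ∈ S, min (G.dist s a) (G.dist s b) ≠ min (G.dist s c) (G.dist s d)) := by
  have hdeg : ∀ v : V, 2 ≤ G.degree v := two_le_degree G hcard hcut
  have h3 : ∃ v : V, 3 ≤ G.degree v := by
    by_contra hcon
    push Not at hcon
    obtain ⟨n, ⟨e⟩⟩ := Pool.Agent.Helper431.exists_iso_cycleGraph hconn hdeg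
      (fun v => by have := hcon v; omega)
    exact (hcycle n).false e
  obtain ⟨r, S, -, hS, hMR, -⟩ := Pool.Agent.Helper431.core hconn hdeg h3
  refine ⟨S, by omega, hMR.vv, hMR.ve, ?_⟩
  intro a b c d hab hcd hne
  exact hMR.ee a b c d hab hcd (fun h => hne (by rw [h.1, h.2]))
    (fun h => hne (by rw [h.1, h.2, Sym2.eq_swap]))

end Pool.Agent.Results.MP_ca4ce9_co.MixedDimBound
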